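import Pool.Agent.Helper85.CR.Goals

/-!
# Project CR, packet FCOL: closing the ring gives a 5-critical graph
-/

set_option autoImplicit false

namespace Pool.Agent.Helper98.CR

open Pool.Agent.Helper85.CR

theorem close_adj {V : Type} (G : SimpleGraph V) (ρ : Fin 4 → V) (u v : V) :
    (close G ρ).Adj u v ↔ G.Adj u v ∨ ((s(u, v) = s(ρ 0, ρ 2) ∨ s(u, v) = s(ρ 1, ρ 3)) ∧ u ≠ v) := by
  unfold close
  rw [SimpleGraph.sup_adj, SimpleGraph.fromEdgeSet_adj]
  simp only [Set.mem_insert_iff, Set.mem_singleton_iff]

/-- FCOL -/
theorem gFCOL : StmtFCOL := by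
  classical
  intro V G ρ hG hd
  -- colourings of the closed graph without one edge
  have hdiag : ∀ (c : V → Fin 4) (u v : V) (a b : V), s(u, v) = s(a, b) → c a ≠ c b →
      c u ≠ c v := by
    intro c u v a b h hab
    rw [Sym2.eq_iff] at h
    rcases h with ⟨rfl, rfl⟩ | ⟨rfl, rfl⟩
    · exact hab
    · exact hab.symm
  have hE : ∀ x y, (close G ρ).Adj x y → ∃ c, PropEx (close G ρ) x y c := by
    intro x y hxy
    rw [close_adj] at hxy
    rcases hxy with hxy | ⟨hxy | hxy, -⟩
    · by_cases hr : ∀ i, s(x, y) ≠ s(ρ i, ρ (i + 1))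
      · obtain ⟨c, hc, hi⟩ := hG.crit x y hxy hr
        refine ⟨c, fun u v huv hne => ?_⟩
        rw [close_adj] at huv
        rcases huv with huv | ⟨huv | huv, -⟩
        · exact hc u v huv hne
        · refine hdiag c u v _ _ huv fun h => ?_
          have h1 := @hi 0 2 h
          revert h1
          decide
        · refine hdiag c u v _ _ huv fun h => ?_
          have h1 := @hi 1 3 h
          revert h1
          decide
      · push Not at hr
        obtain ⟨i, hi⟩ := hr
        obtain ⟨c, hc, h1, h2, h3, h4⟩ := hG.critR i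
        have h02 : c (ρ 0) ≠ c (ρ 2) := by
          simp only [Function.comp_apply] at h1 h2 h3 h4
          fin_cases i
          · exact h3
          · rw [show ((⟨1, by omega⟩ : Fin 4) + 3) = 0 by rfl] at h4
            rw [show ((⟨1, by omega⟩ : Fin 4) + 1) = 2 by rfl] at h1
            intro h
            exact h4 (h1.trans h.symm)
          · exact h3.symm
          · rw [show ((⟨3, by omega⟩ : Fin 4) + 3) = 2 by rfl] at h4
            rw [show ((⟨3, by omega⟩ : Fin 4) + 1) = 0 by rfl] at h1
            intro h
            exact h4 (h1.trans h)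
        have h13 : c (ρ 1) ≠ c (ρ 3) := by
          simp only [Function.comp_apply] at h1 h2 h3 h4
          fin_cases i
          · rw [show ((⟨0, by omega⟩ : Fin 4) + 3) = 3 by rfl] at h4
            rw [show ((⟨0, by omega⟩ : Fin 4) + 1) = 1 by rfl] at h1
            intro h
            exact h4 (h1.trans h)
          · exact h3
          · rw [show ((⟨2, by omega⟩ : Fin 4) + 3) = 1 by rfl] at h4
            rw [show ((⟨2, by omega⟩ : Fin 4) + 1) = 3 by rfl] at h1
            intro h
            exact h4 (h1.trans h.symm)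
          · exact h3.symm
        refine ⟨c, fun u v huv hne => ?_⟩
        rw [close_adj] at huv
        rw [hi] at hne
        rcases huv with huv | ⟨huv | huv, -⟩
        · exact hc u v huv hne
        · exact hdiag c u v _ _ huv h02
        · exact hdiag c u v _ _ huv h13
    · obtain ⟨c, hc, h1, h2, h3, h4⟩ := hG.pat1
      refine ⟨c, fun u v huv hne => ?_⟩
      rw [close_adj] at huv
      rcases huv with huv | ⟨huv | huv, -⟩
      · exact hc u v huv
      · exact absurd (huv.trans hxy.symm) hne
      · exact hdiag c u v _ _ huv h2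
    · obtain ⟨c, hc, h1, h2, h3, h4⟩ := hG.pat2
      refine ⟨c, fun u v huv hne => ?_⟩
      rw [close_adj] at huv
      rcases huv with huv | ⟨huv | huv, -⟩
      · exact hc u v huv
      · exact hdiag c u v _ _ huv h2
      · exact absurd (huv.trans hxy.symm) hne
  -- not 4-colourable
  have hn4 : ¬ (close G ρ).Colorable 4 := by
    rintro ⟨C⟩
    have hp : ∀ u v, (close G ρ).Adj u v → C u ≠ C v := fun u v h => C.valid h
    have hring : ∀ i, C (ρ i) ≠ C (ρ (i + 1)) := fun i =>
      hp _ _ ((close_adj G ρ _ _).2 (Or.inl (hG.ring i)))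
    have h02 : C (ρ 0) ≠ C (ρ 2) := hp _ _ ((close_adj G ρ _ _).2 (Or.inr ⟨Or.inl rfl,
      fun h => by have h1 := hG.inj h; revert h1; decide⟩))
    have h13 : C (ρ 1) ≠ C (ρ 3) := hp _ _ ((close_adj G ρ _ _).2 (Or.inr ⟨Or.inr rfl,
      fun h => by have h1 := hG.inj h; revert h1; decide⟩))
    have h01 : C (ρ 0) ≠ C (ρ 1) := hring 0
    have h12 : C (ρ 1) ≠ C (ρ 2) := hring 1
    have h23 : C (ρ 2) ≠ C (ρ 3) := hring 2
    have h30 : C (ρ 3) ≠ C (ρ 0) := hring 3
    apply hG.noR (fun v => C v) (fun u v h => hp u v ((close_adj G ρ _ _).2 (Or.inl h)))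
    intro i j hij
    simp only [Function.comp_apply] at hij
    fin_cases i <;> fin_cases j <;>
      first
        | rfl
        | exact absurd hij h01
        | exact absurd hij h02
        | exact absurd hij h12
        | exact absurd hij h13
        | exact absurd hij h23
        | exact absurd hij h30
        | exact absurd hij.symm h01
        | exact absurd hij.symm h02
        | exact absurd hij.symm h12
        | exact absurd hij.symm h13
        | exact absurd hij.symm h23
        | exact absurd hij.symm h30
  -- 5-colourable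
  have h5 : (close G ρ).Colorable 5 := by
    obtain ⟨c, hc⟩ := hE (ρ 0) (ρ 1) ((close_adj G ρ _ _).2 (Or.inl (hG.ring 0)))
    refine ⟨SimpleGraph.Coloring.mk (fun v => if v = ρ 0 then (Fin.last 4) else (c v).castSucc) ?_⟩
    intro u v huv
    by_cases hu : u = ρ 0
    · have hv : v ≠ ρ 0 := fun h => huv.ne (hu.trans h.symm)
      rw [if_pos hu, if_neg hv]
      exact (Fin.castSucc_lt_last (c v)).ne'
    · by_cases hv : v = ρ 0
      · rw [if_neg hu, if_pos hv]
        exact (Fin.castSucc_lt_last (c u)).ne
      · rw [if_neg hu, if_neg hv]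
        intro h
        refine hc u v huv ?_ (Fin.castSucc_injective 4 h)
        intro h1
        rw [Sym2.eq_iff] at h1
        rcases h1 with ⟨h1, -⟩ | ⟨-, h1⟩
        · exact hu h1
        · exact hv h1
  refine ⟨?_, ?_⟩
  · apply le_antisymm
    · exact h5.chromaticNumber_le
    · by_contra hcon
      push Not at hcon
      apply hn4
      have h6 : (close G ρ).chromaticNumber ≤ 4 := by
        have h7 : (close G ρ).chromaticNumber < (4 : ℕ∞) + 1 := by
          refine lt_of_lt_of_eq hcon ?_
          norm_num
        exact (ENat.lt_add_one_iff (by norm_num)).1 h7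
      exact SimpleGraph.chromaticNumber_le_iff_colorable.1 h6
  · intro H hH
    obtain ⟨x, y, hxy, hnot⟩ : ∃ x y, (close G ρ).Adj x y ∧ ¬ H.Adj x y := by
      by_contra hcon
      push Not at hcon
      apply hH
      ext u v
      · constructor
        · intro _
          trivial
        · intro _
          obtain ⟨w, hw⟩ := hd u
          exact H.edge_vert (hcon u w ((close_adj G ρ _ _).2 (Or.inl hw)))
      · constructor
        · intro h
          exact H.adj_sub h
        · intro h
          exact hcon u v h
    obtain ⟨c, hc⟩ := hE x y hxy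
    refine ⟨SimpleGraph.Coloring.mk (fun v => c v) ?_⟩
    intro u v huv
    have h1 : H.Adj (u : V) (v : V) := huv
    refine hc u v (H.adj_sub h1) ?_
    intro h2
    rw [Sym2.eq_iff] at h2
    rcases h2 with ⟨h2, h3⟩ | ⟨h2, h3⟩
    · rw [h2, h3] at h1
      exact hnot h1
    · rw [h2, h3] at h1
      exact hnot h1.symm

end Pool.Agent.Helper98.CR
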